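import Pool.Agent.H728R2.FA.Defs
import Pool.Agent.H728R2.OS.Base

/-!
# Finiteness of attractors for projective skew products: auxiliary definitions
-/

open Set Filter Topology MeasureTheory
open scoped ComplexConjugate

namespace Pool.Agent.H728R2.FA

open Pool.Agent.H728R2.OS

/-- A measurable cocycle with values in `SU(1,1)` over an ergodic automorphism of a probability
space. -/
structure Coc (B : Type*) [MeasurableSpace B] (m : Measure B) where
  T : B ≃ᵐ B
  erg : Ergodic T m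
  a : B → ℂ
  b : B → ℂ
  ma : Measurable a
  mb : Measurable b
  det : ∀ x, ‖a x‖ ^ 2 - ‖b x‖ ^ 2 = 1
  M : ℝ
  bd : ∀ x, ‖a x‖ ≤ M

namespace Coc

variable {B : Type*} [MeasurableSpace B] {m : Measure B} (D : Coc B m)

/-- The multiplier `conj b w + conj a` of the vector `(w, 1)`. -/
noncomputable def den (x : B) (w : ℂ) : ℂ := conj (D.b x) * w + conj (D.a x)

/-- The multiplier `a + b v` of the vector `(1, v)`. -/
noncomputable def dem (x : B) (v : ℂ) : ℂ := D.a x + D.b x * v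

/-- The map `w ↦ l (a w + b) / (conj b w + conj a)`. -/
noncomputable def G (l : ℂ) (x : B) (w : ℂ) : ℂ := l * (D.a x * w + D.b x) / D.den x w

/-- The iterates along the orbit of `x`. -/
noncomputable def it (l : ℂ) : ℕ → B → ℂ → ℂ
  | 0, _, w => w
  | n + 1, x, w => D.G l (D.T^[n] x) (it l n x w)

/-- `u l`, `‖l‖ < 1`, is the attracting section in the unit disc. -/
structure IsSec (u : ℂ → B → ℂ) : Prop where
  hol : ∀ x, DifferentiableOn ℂ (fun l => u l x) (Metric.ball 0 1)
  meas : ∀ l, ‖l‖ < 1 → Measurable (u l)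
  le : ∀ l x, ‖l‖ < 1 → ‖u l x‖ ≤ ‖l‖
  inv : ∀ l x, ‖l‖ < 1 → u l (D.T x) = D.G l x (u l x)

/-- `v l`, `‖l‖ < 1`, is the inverse of the repelling section outside of the unit disc: the line
of `(1, v)` is invariant. -/
structure IsCosec (v : ℂ → B → ℂ) : Prop where
  hol : ∀ x, DifferentiableOn ℂ (fun l => v l x) (Metric.ball 0 1)
  meas : ∀ l, ‖l‖ < 1 → Measurable (v l)
  le : ∀ r : ℝ, 0 ≤ r → r < 1 → ∃ c : ℝ, c < 1 ∧ ∀ l x, ‖l‖ ≤ r → ‖v l x‖ ≤ c
  inv : ∀ l x, ‖l‖ < 1 → v l x =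
    (D.a x * (l * v l (D.T x)) - conj (D.b x)) / (-(D.b x * (l * v l (D.T x))) + conj (D.a x))

/-- `∫ log ‖conj b w + conj a‖ dm` for a section `w`. -/
noncomputable def LL (w : B → ℂ) : ℝ := ∫ x, Real.log ‖D.den x (w x)‖ ∂m

/-- `F θ` is a realisation of the rotated cocycle on the circle bundle. -/
structure Real (F : Circ → B × Circ → B × Circ) : Prop where
  meas : Measurable (fun p : Circ × (B × Circ) => F p.1 p.2)
  fst : ∀ θ p, (F θ p).1 = D.T p.1
  snd : ∀ θ p, e (F θ p).2 = D.G (e θ) p.1 (e p.2)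

end Coc

/-- The Poisson kernel of the disc, with respect to the invariant probability measure on the
circle `ℝ/ℤ`. -/
noncomputable def PK (z : ℂ) (y : Circ) : ℝ := (1 - ‖z‖ ^ 2) / ‖e y - z‖ ^ 2

/-- The harmonic extension of `e(y)^j`: `z^j` for `j ≥ 0`, `conj z^(-j)` for `j < 0`. -/
noncomputable def HH (j : ℤ) (z : ℂ) : ℂ := if 0 ≤ j then z ^ j.toNat else conj z ^ (-j).toNat

end Pool.Agent.H728R2.FA
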