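import Pool.Agent.H728R2.FA.Main

/-!
# Finiteness of attractors for projective skew products of tori: final form
-/

open Set Filter Topology MeasureTheory
open scoped ComplexConjugate

namespace Pool.Agent.H728R2.FA

open Pool.Agent.H728R2.OS

theorem OneAttractor.finiteAttractors {X : Type*} [TopologicalSpace X] [MeasurableSpace X]
    {μ : Measure X} {f : X → X} (h : OneAttractor μ f) : FiniteAttractors μ f := by
  obtain ⟨Λ, hcl, hA, hae⟩ := h
  refine ⟨1, fun _ => Λ, fun _ => hA, ?_⟩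
  rw [ae_iff] at hae
  refine measure_mono_null ?_ hae
  intro p hp
  have h1 := hp 0
  exact fun h2 => h1 h2.le

/-- A property of almost all points of the circle holds for almost all real numbers mod 1. -/
theorem ae_real_of_ae_circ {P : Circ → Prop} (h : ∀ᵐ θ : Circ, P θ) :
    ∀ᵐ t : ℝ, P (t : UnitAddCircle) := by
  have key : ∀ a : ℝ, ∀ᵐ (t : ℝ) ∂((volume : Measure ℝ).restrict (Ioc a (a + 1))),
      P (t : UnitAddCircle) := by
    intro a
    have := (AddCircle.measurePreserving_mk (1 : ℝ) a).quasiMeasurePreserving.ae h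
    exact this
  have hcov : (⋃ n : ℤ, Ioc ((n : ℝ)) ((n : ℝ) + 1)) = univ := by
    have := iUnion_Ioc_add_intCast (0 : ℝ)
    simpa using this
  have h2 : ∀ᵐ (t : ℝ) ∂((volume : Measure ℝ).restrict (⋃ n : ℤ, Ioc ((n : ℝ)) ((n : ℝ) + 1))),
      P (t : UnitAddCircle) := by
    rw [ae_restrict_iUnion_iff]
    exact fun n => key n
  rwa [hcov, Measure.restrict_univ] at h2

theorem isDiffeo_rotated {d : ℕ} {r : ℕ∞} {f : (Torus d × Circ) ≃ₜ (Torus d × Circ)}
    (hf : IsDiffeo toTorus1 r f) (θ : ℝ) : IsDiffeo toTorus1 r (rotated f θ) := by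
  obtain ⟨⟨F, hF, lF⟩, G, hG, lG⟩ := hf
  refine ⟨⟨fun z => F z + ((0 : Fin d → ℝ), θ), hF.add contDiff_const, ?_⟩,
    ⟨fun z => G (z - ((0 : Fin d → ℝ), θ)), hG.comp (contDiff_id.sub contDiff_const), ?_⟩⟩
  · intro z
    have h := lF z
    refine Prod.ext ?_ ?_
    · show toTorus ((F z).1 + 0) = (f (toTorus1 z)).1
      rw [add_zero, ← h]
      rfl
    · show (((F z).2 + θ : ℝ) : UnitAddCircle) = (f (toTorus1 z)).2 + (θ : UnitAddCircle)
      rw [← h]
      rfl
  · intro z
    have h := lG (z - ((0 : Fin d → ℝ), θ))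
    rw [h]
    show f.symm (toTorus1 (z - ((0 : Fin d → ℝ), θ))) = f.symm _
    congr 1
    refine Prod.ext ?_ ?_
    · show toTorus (z.1 - 0) = toTorus z.1
      rw [sub_zero]
    · show ((z.2 - θ : ℝ) : UnitAddCircle) = (z.2 : UnitAddCircle) + -(θ : UnitAddCircle)
      rw [← sub_eq_add_neg]
      rfl

theorem ckClose_rotated {d : ℕ} {r : ℕ∞} {f : (Torus d × Circ) ≃ₜ (Torus d × Circ)}
    (hf : IsDiffeo toTorus1 r f) (k : ℕ) (hk : (k : ℕ∞) ≤ r) (θ ε : ℝ) (hθ : |θ| < ε) :
    CkClose toTorus1 k ε f (rotated f θ) := by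
  obtain ⟨⟨F, hF, lF⟩, -⟩ := hf
  have hFk : ContDiff ℝ k F := hF.of_le (by exact_mod_cast hk)
  refine ⟨F, fun z => F z + ((0 : Fin d → ℝ), θ), hFk, hFk.add contDiff_const, lF, ?_, ?_⟩
  · intro z
    have h := lF z
    refine Prod.ext ?_ ?_
    · show toTorus ((F z).1 + 0) = (f (toTorus1 z)).1
      rw [add_zero, ← h]
      rfl
    · show (((F z).2 + θ : ℝ) : UnitAddCircle) = (f (toTorus1 z)).2 + (θ : UnitAddCircle)
      rw [← h]
      rfl
  · intro j _ z
    have h0 : (fun w : (Fin d → ℝ) × ℝ => F w + ((0 : Fin d → ℝ), θ) - F w) =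
        fun _ => ((0 : Fin d → ℝ), θ) := by
      funext w
      abel
    simp only [h0]
    have hε : 0 < ε := (abs_nonneg θ).trans_lt hθ
    rcases Nat.eq_zero_or_pos j with rfl | hj
    · rw [norm_iteratedFDeriv_zero, Prod.norm_def]
      simpa using hθ
    · rw [iteratedFDeriv_const_of_ne hj.ne']
      simpa using hε

theorem isProjective_add {g : Circ → Circ} (hg : IsProjective g) (θ : ℝ) :
    IsProjective (fun y => g y + (θ : UnitAddCircle)) := by
  obtain ⟨A, hA, h⟩ := hg
  set R : Matrix (Fin 2) (Fin 2) ℝ :=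
    !![Real.cos (Real.pi * θ), -Real.sin (Real.pi * θ);
      Real.sin (Real.pi * θ), Real.cos (Real.pi * θ)] with hR
  refine ⟨R * A, ?_, ?_⟩
  · rw [Matrix.det_mul, hA, hR, Matrix.det_fin_two_of]
    have := Real.cos_sq_add_sin_sq (Real.pi * θ)
    nlinarith
  · intro t s hts
    have h1 : g (t : UnitAddCircle) = ((s - θ : ℝ) : UnitAddCircle) := by
      have hts' : g (t : UnitAddCircle) + (θ : UnitAddCircle) = (s : UnitAddCircle) := hts
      rw [AddCircle.coe_sub, ← hts']
      exact (add_sub_cancel_right _ _).symm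
    obtain ⟨c, hc⟩ := h t (s - θ) h1
    refine ⟨c, ?_⟩
    rw [← Matrix.mulVec_mulVec, hc, Matrix.mulVec_smul]
    congr 1
    have e1 : Real.pi * s = Real.pi * θ + Real.pi * (s - θ) := by ring
    ext i
    fin_cases i
    · simp [hR, Matrix.mulVec, dotProduct, Fin.sum_univ_two, e1, Real.cos_add]
      ring
    · simp [hR, Matrix.mulVec, dotProduct, Fin.sum_univ_two, e1, Real.sin_add]

theorem isProjSkew_rotated {d : ℕ} {T : Torus d ≃ₜ Torus d}
    {f : (Torus d × Circ) ≃ₜ (Torus d × Circ)} (hs : IsProjSkew T f) (θ : ℝ) :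
    IsProjSkew T (rotated f θ) :=
  ⟨fun x y => hs.1 x y, fun x => isProjective_add (hs.2 x) θ⟩

/-- For almost every angle the rotated skew product has exactly one attractor. -/
theorem main_ae {d : ℕ} (T : Torus d ≃ₜ Torus d) (m : Measure (Torus d)) [IsProbabilityMeasure m]
    (hm1 : m ≪ volume) (hm2 : volume ≪ m) (erg : Ergodic T m)
    (f : (Torus d × Circ) ≃ₜ (Torus d × Circ)) (hs : IsProjSkew T f) :
    ∀ᵐ θ : ℝ, OneAttractor (volume : Measure (Torus d × Circ)) (rotated f θ) := by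
  have hopen : ∀ W : Set (Torus d), IsOpen W → W.Nonempty → m W ≠ 0 := by
    intro W hW hne h0
    exact (hW.measure_pos volume hne).ne' (hm2 h0)
  have hvol : (volume : Measure (Torus d × Circ)) ≪ m.prod volume := by
    rw [Measure.volume_eq_prod]
    exact Measure.AbsolutelyContinuous.prod hm2 Measure.AbsolutelyContinuous.rfl
  have hvol0 : (volume : Measure (Torus d × Circ)) ≠ 0 := NeZero.ne _
  exact ae_real_of_ae_circ (main_general hopen T erg f (fun p => hs.1 p.1 p.2)
    (fun x => projective_mob (hs.2 x)) volume hvol hvol0)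

/-- Density: arbitrarily close in the `C^r` topology there are projective skew products over the
same base with exactly one attractor. -/
theorem main_dense {d : ℕ} {r : ℕ∞} (T : Torus d ≃ₜ Torus d) (m : Measure (Torus d))
    [IsProbabilityMeasure m] (hm1 : m ≪ volume) (hm2 : volume ≪ m) (erg : Ergodic T m)
    (f : (Torus d × Circ) ≃ₜ (Torus d × Circ)) (hf : IsDiffeo toTorus1 r f)
    (hs : IsProjSkew T f) (k : ℕ) (hk : (k : ℕ∞) ≤ r) (ε : ℝ) (hε : 0 < ε) :
    ∃ g : (Torus d × Circ) ≃ₜ (Torus d × Circ), IsDiffeo toTorus1 r g ∧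
      CkClose toTorus1 k ε f g ∧ IsProjSkew T g ∧
      OneAttractor (volume : Measure (Torus d × Circ)) g := by
  have hae := main_ae T m hm1 hm2 erg f hs
  have hne : ∃ θ : ℝ, |θ| < ε ∧ OneAttractor (volume : Measure (Torus d × Circ)) (rotated f θ) := by
    by_contra hcon
    push Not at hcon
    have h1 : volume (Ioo (0 : ℝ) ε) = 0 := by
      rw [ae_iff] at hae
      refine measure_mono_null ?_ hae
      intro θ hθ
      exact hcon θ (abs_lt.2 ⟨by linarith [hθ.1], hθ.2⟩)
    rw [Real.volume_Ioo, sub_zero, ENNReal.ofReal_eq_zero] at h1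
    linarith
  obtain ⟨θ, hθ, h⟩ := hne
  exact ⟨rotated f θ, isDiffeo_rotated hf θ, ckClose_rotated hf k hk θ ε hθ,
    isProjSkew_rotated hs θ, h⟩

end Pool.Agent.H728R2.FA
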