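import Pool.Agent.H728R2.FA.Stubs
import Pool.Agent.H728R2.OS.S.SL2
import Pool.Agent.H728R2.OS.S.ITER

/-!
# Finiteness of attractors for projective skew products: assembly
-/

open Set Filter Topology MeasureTheory
open scoped ComplexConjugate

namespace Pool.Agent.H728R2.FA

open Pool.Agent.H728R2.OS

theorem iterate_it {B : Type*} [MeasurableSpace B] {m : Measure B} (D : Coc B m)
    {F : Circ → B × Circ → B × Circ} (hF : D.Real F) (θ : Circ) (n : ℕ) (x : B) (y : Circ) :
    ((F θ)^[n] (x, y)).1 = D.T^[n] x ∧ e ((F θ)^[n] (x, y)).2 = D.it (e θ) n x (e y) := by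
  induction n with
  | zero => exact ⟨rfl, rfl⟩
  | succ n ih =>
    rw [Function.iterate_succ_apply', Function.iterate_succ_apply', hF.fst, hF.snd, ih.1, ih.2]
    exact ⟨rfl, rfl⟩

/-- The rotated skew product with a parameter on the circle. -/
noncomputable def rotF {B : Type*} [TopologicalSpace B] (f : (B × Circ) ≃ₜ (B × Circ))
    (θ : Circ) : (B × Circ) ≃ₜ (B × Circ) :=
  f.trans ((Homeomorph.refl B).prodCongr (Homeomorph.addRight θ))

theorem ae_prod_left {A B : Type*} [MeasurableSpace A] [MeasurableSpace B] {μ : Measure A}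
    {m : Measure B} [SFinite m] [SFinite μ] {p : A × B → Prop} (h : ∀ᵐ q ∂(μ.prod m), p q) :
    ∀ᵐ θ ∂μ, ∀ᵐ x ∂m, p (θ, x) := Measure.ae_ae_of_ae_prod h

/-- Main theorem with a general base. -/
theorem main_general {B : Type*} [MetricSpace B] [CompactSpace B] [MeasurableSpace B]
    [BorelSpace B] {m : Measure B} [IsProbabilityMeasure m] (hopen : ∀ W : Set B, IsOpen W →
      W.Nonempty → m W ≠ 0) (T : B ≃ₜ B) (erg : Ergodic T m)
    (f : (B × Circ) ≃ₜ (B × Circ)) (hf : ∀ p, (f p).1 = T p.1)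
    (hmob : ∀ x, ∃ a b : ℂ, ‖a‖ ^ 2 - ‖b‖ ^ 2 = 1 ∧
      ∀ y, e (f (x, y)).2 = (a * e y + b) / (conj b * e y + conj a))
    (μ : Measure (B × Circ)) (hμ : μ ≪ m.prod volume) (hμ0 : μ ≠ 0) :
    ∀ᵐ θ : Circ, OneAttractor μ (rotF f θ) := by
  obtain ⟨a, b, ma, mb, hab, ⟨M, hM⟩, hmob⟩ := exists_coeff f f.continuous hmob
  let D : Coc B m :=
    { T := T.toMeasurableEquiv
      erg := erg
      a := a
      b := b
      ma := ma
      mb := mb
      det := hab
      M := M
      bd := hM }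
  have hT : ∀ x, D.T x = T x := fun x => rfl
  obtain ⟨u, hu⟩ := exists_sec D (it_sub D)
  obtain ⟨v, hv⟩ := exists_cosec D (fun D' => exists_sec D' (it_sub D'))
  have hden := den_bounds D
  have hdem := dem_bounds D
  have hrel := fun (l : ℂ) (t : ℝ) (ht : 1 ≤ t) (hl : ‖(t : ℂ) * l‖ < 1) (x : B) =>
    det_rel D hu hv l t ht hl x
  have hsq := fun (l : ℂ) (hl : l ≠ 0) (x : B) (w : ℂ) (hw : ‖w‖ ≤ 1) => den_sq D l hl x w hw
  obtain ⟨hmon, hsum⟩ := LL_mono D hu hv hden hdem hrel
  have hlow := LL_lower D hu hden hsq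
  have hmean := LL_mean D hu hden
  -- boundary values
  have hr0 : ∀ j : ℕ, 0 < 1 - 1 / ((j : ℝ) + 2) ∧ 1 - 1 / ((j : ℝ) + 2) < 1 := by
    intro j
    have h1 : (0 : ℝ) < (j : ℝ) + 2 := by positivity
    have h2 : 1 / ((j : ℝ) + 2) < 1 := by
      rw [div_lt_one h1]
      have : (0 : ℝ) ≤ j := Nat.cast_nonneg j
      linarith
    have h3 : 0 < 1 / ((j : ℝ) + 2) := by positivity
    constructor <;> linarith
  have hr1 : Tendsto (fun j : ℕ => 1 - 1 / ((j : ℝ) + 2)) atTop (𝓝 1) := by
    have h1 : Tendsto (fun j : ℕ => 1 / ((j : ℝ) + 2)) atTop (𝓝 0) := by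
      apply Tendsto.div_atTop tendsto_const_nhds
      exact tendsto_atTop_add_const_right _ _ tendsto_natCast_atTop_atTop
    simpa using tendsto_const_nhds.sub h1
  obtain ⟨φ₁, U, hφ₁, mU, bU, hU₁⟩ := boundary_values m u hu.hol hu.meas
    (fun l x hl => (hu.le l x hl).trans hl.le) _ hr0 hr1
  have hr0' : ∀ j : ℕ, 0 < 1 - 1 / ((φ₁ j : ℝ) + 2) ∧ 1 - 1 / ((φ₁ j : ℝ) + 2) < 1 :=
    fun j => hr0 (φ₁ j)
  have hr1' : Tendsto (fun j : ℕ => 1 - 1 / ((φ₁ j : ℝ) + 2)) atTop (𝓝 1) :=
    hr1.comp hφ₁.tendsto_atTop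
  obtain ⟨φ₂, V, hφ₂, mV, bV, hV⟩ := boundary_values m v hv.hol hv.meas
    (fun l x hl => by
      obtain ⟨c, hc, h⟩ := hv.le ‖l‖ (norm_nonneg _) hl
      exact (h l x le_rfl).trans hc.le) _ hr0' hr1'
  set r : ℕ → ℝ := fun j => 1 - 1 / ((φ₁ (φ₂ j) : ℝ) + 2) with hrdef
  have hr : ∀ j, 0 < r j ∧ r j < 1 := fun j => hr0 _
  have hrt : Tendsto r atTop (𝓝 1) := hr1'.comp hφ₂.tendsto_atTop
  have hU : ∀ᵐ p : Circ × B ∂(volume.prod m),
      Tendsto (fun j => u (r j * e p.1) p.2) atTop (𝓝 (U p.1 p.2)) := by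
    filter_upwards [hU₁] with p hp
    exact hp.comp hφ₂.tendsto_atTop
  have hkot := kotani D hu r hr hrt U mU bU hU hden hmon hlow hmean
  have hbr := boundary_rel D hu hv r hr hrt U mU bU hU V mV bV hV hden hdem hrel hsum
  -- realisation
  let F : Circ → B × Circ → B × Circ := fun θ p => rotF f θ p
  have hFr : D.Real F := by
    refine ⟨?_, ?_, ?_⟩
    · have : Continuous (fun p : Circ × (B × Circ) => F p.1 p.2) := by
        show Continuous (fun p : Circ × (B × Circ) => ((f p.2).1, (f p.2).2 + p.1))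
        fun_prop
      exact this.measurable
    · intro θ p
      exact hf p
    · intro θ p
      show e ((f p).2 + θ) = D.G (e θ) p.1 (e p.2)
      have h1 : e ((f p).2 + θ) = e (f p).2 * e θ := by
        simp [e, AddCircle.toCircle_add]
      rw [h1, show p = (p.1, p.2) from rfl, hmob]
      simp only [Coc.G, Coc.den]
      ring
  -- the two cases
  let Θ : Set Circ := {θ | m {x | ¬ ‖U θ x‖ < 1} = 0} ∩
    {θ | m {x | ¬ U θ (D.T x) = D.G (e θ) x (U θ x)} = 0}
  have meas_e : Measurable e := by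
    have : Continuous e := by
      unfold e
      fun_prop
    exact this.measurable
  have mΘ : MeasurableSet Θ := by
    refine MeasurableSet.inter ?_ ?_
    · have hs : MeasurableSet {p : Circ × B | ¬ ‖U p.1 p.2‖ < 1} := by
        have : MeasurableSet {p : Circ × B | ‖U p.1 p.2‖ < 1} :=
          measurableSet_lt (mU.norm) measurable_const
        exact this.compl
      exact (measurable_measure_prodMk_left hs) (measurableSet_singleton 0)
    · have hs : MeasurableSet {p : Circ × B | ¬ U p.1 (D.T p.2) = D.G (e p.1) p.2 (U p.1 p.2)} := by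
        have h1 : Measurable (fun p : Circ × B => U p.1 (D.T p.2)) :=
          mU.comp (measurable_fst.prodMk (D.T.measurable.comp measurable_snd))
        have h2 : Measurable (fun p : Circ × B => D.G (e p.1) p.2 (U p.1 p.2)) := by
          unfold Coc.G Coc.den
          have hU' : Measurable (fun p : Circ × B => U p.1 p.2) := mU
          have ha' : Measurable (fun p : Circ × B => D.a p.2) := D.ma.comp measurable_snd
          have hb' : Measurable (fun p : Circ × B => D.b p.2) := D.mb.comp measurable_snd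
          have hca : Measurable (fun p : Circ × B => (starRingEnd ℂ) (D.a p.2)) :=
            Complex.continuous_conj.measurable.comp ha'
          have hcb : Measurable (fun p : Circ × B => (starRingEnd ℂ) (D.b p.2)) :=
            Complex.continuous_conj.measurable.comp hb'
          have he : Measurable (fun p : Circ × B => e p.1) := meas_e.comp measurable_fst
          exact (he.mul ((ha'.mul hU').add hb')).div ((hcb.mul hU').add hca)
        exact (measurableSet_eq_fun h1 h2).compl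
      exact (measurable_measure_prodMk_left hs) (measurableSet_singleton 0)
  have hΘ1 : ∀ θ ∈ Θ, ∀ᵐ x ∂m, ‖U θ x‖ < 1 := fun θ hθ => ae_iff.2 hθ.1
  have hΘ2 : ∀ θ ∈ Θ, ∀ᵐ x ∂m, U θ (D.T x) = D.G (e θ) x (U θ x) := fun θ hθ => ae_iff.2 hθ.2
  have hWone := weak_one D hu r hr hrt U mU bU hU (it_sub D) riemann_lebesgue
  have hWall := weak_all D F hFr U mU bU Θ mΘ hΘ1 hΘ2 PK_bounds PK_measurable PK_moment
    PK_transport hWone
  have hErg := invariant_const D F hFr U mU bU Θ mΘ hΘ1 hΘ2 PK_bounds PK_measurable PK_moment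
    PK_transport hWall
  have hvis := visits D F hFr U mU bU Θ mΘ hΘ1 hΘ2 PK_bounds PK_measurable PK_moment
    PK_transport hErg
  -- countable basis
  have hbasis := TopologicalSpace.isBasis_countableBasis (B × Circ)
  have hcount := TopologicalSpace.countable_countableBasis (B × Circ)
  have hpos : ∀ W : Set (B × Circ), IsOpen W → W.Nonempty →
      (m.prod (volume : Measure Circ)) W ≠ 0 := by
    intro W hW hne
    haveI : m.IsOpenPosMeasure := ⟨fun W hW hne => hopen W hW hne⟩
    exact (hW.measure_pos _ hne).ne'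
  have hvis' : ∀ᵐ θ : Circ, θ ∈ Θ → ∀ W ∈ TopologicalSpace.countableBasis (B × Circ),
      W.Nonempty → ∀ᵐ q ∂(m.prod (volume : Measure Circ)), ∃ᶠ n in atTop, (F θ)^[n] q ∈ W := by
    have h1 : ∀ᵐ θ : Circ, ∀ W ∈ TopologicalSpace.countableBasis (B × Circ),
        θ ∈ Θ → W.Nonempty → ∀ᵐ q ∂(m.prod (volume : Measure Circ)),
          ∃ᶠ n in atTop, (F θ)^[n] q ∈ W := by
      rw [ae_ball_iff hcount]
      intro W hW
      by_cases hne : W.Nonempty
      · have hWo := hbasis.isOpen hW
        filter_upwards [hvis W hWo.measurableSet (hpos W hWo hne)] with θ hθ h1 _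
        exact hθ h1
      · filter_upwards with θ h1 h2
        exact absurd h2 hne
    filter_upwards [h1] with θ hθ h2 W hW h3
    exact hθ W hW h2 h3
  have hbirk := fun (φ : B → ℝ) (h1 : Measurable φ) (h2 : ∃ C, ∀ x, |φ x| ≤ C) =>
    birkhoff erg φ h1 h2
  filter_upwards [hkot, hbr, hvis'] with θ h1 h2 h3
  by_cases hθ : θ ∈ Θ
  · refine oneAttractor_of_visits μ hμ0 (rotF f θ) ?_
    intro W hW hne
    obtain ⟨p, hp⟩ := hne
    obtain ⟨W', hW', hpW', hsub⟩ := hbasis.exists_subset_of_mem_open hp hW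
    have := hμ.ae_le (h3 hθ W' hW' ⟨p, hpW'⟩)
    filter_upwards [this] with q hq
    exact hq.mono fun n hn => hsub hn
  · obtain ⟨i1, i2, i3, i4⟩ := h2
    have hnot : ¬ ∀ᵐ x ∂m, ‖U θ x‖ < 1 := by
      intro h
      exact hθ ⟨ae_iff.1 h, ae_iff.1 i1⟩
    have hLL : 0 < D.LL (U θ) := by
      rcases h1.1.lt_or_eq with h | h
      · exact h
      · exact absurd (h1.2 h.symm) hnot
    have mU' : Measurable (U θ) := mU.comp measurable_prodMk_left
    have mV' : Measurable (V θ) := mV.comp measurable_prodMk_left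
    have hle : ‖e θ‖ = 1 := by simp [e]
    have hc := contraction D (e θ) hle (U θ) (V θ) mU' mV' (bU θ) (bV θ) hden hdem i1 i2 i3 i4 hLL
      hbirk
    refine oneAttractor_of_section T erg (rotF f θ) hf (U θ) mU' μ hμ hμ0 ?_ ?_
    · filter_upwards [hc] with x hx
      refine ⟨(V θ x)⁻¹, fun y hy => ?_⟩
      have h1 := hx (e y) (by simp [e]) (fun h => hy (eq_inv_of_mul_eq_one_right h))
      have h2 : ∀ n, e ((rotF f θ)^[n] (x, y)).2 = D.it (e θ) n x (e y) := fun n =>
        (iterate_it D hFr θ n x y).2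
      simp only [h2]
      exact h1
    · filter_upwards [i1] with x hx y hy
      rw [show U θ (T x) = U θ (D.T x) from rfl, hx, ← hy]
      exact hFr.snd θ (x, y)

end Pool.Agent.H728R2.FA
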