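import Pool.Agent.H728R2.FA.S.DIFF
import Pool.Agent.H728R2.FA.S.SEC
import Pool.Agent.H728R2.FA.S.COSEC
import Pool.Agent.H728R2.FA.S.REL
import Pool.Agent.H728R2.FA.S.KMON
import Pool.Agent.H728R2.FA.S.KLOW
import Pool.Agent.H728R2.FA.S.KMEAN
import Pool.Agent.H728R2.FA.S.BV
import Pool.Agent.H728R2.FA.S.KOT
import Pool.Agent.H728R2.FA.S.BREL
import Pool.Agent.H728R2.FA.S.CONTR
import Pool.Agent.H728R2.FA.S.BIRK
import Pool.Agent.H728R2.FA.S.RL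
import Pool.Agent.H728R2.FA.S.WONE
import Pool.Agent.H728R2.FA.S.PKF
import Pool.Agent.H728R2.FA.S.WALL
import Pool.Agent.H728R2.FA.S.ERG
import Pool.Agent.H728R2.FA.S.TOPE
import Pool.Agent.H728R2.FA.S.TOPH
import Pool.Agent.H728R2.FA.S.SEL
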